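import Pool.Agent.Y232.Amalg.Final

/-!
# Degree-preserving amalgamation of real zero polynomials in two shared variables fails

`p = (1 + 3/2 y) (1 - x₁² - x₂²) - y² (5 - 3 x₁ - 4 x₂)` and
`q = 1 - x₁² - x₂² - z² + 2 x₁ x₂ z` are real zero polynomials of degree three with
`p(x, 0) = q(x, 0) = 1 - x₁² - x₂²`.  They have no common real zero extension of degree three: it
would have to be singular at the real singular points of `p` and `q`, which gives six contradictory
linear equations for the coefficients of the monomials divisible by `y z`.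
-/

set_option autoImplicit false

namespace Pool.Agent.Results.MP_eea824_ag.NoCubicAmalgam

open MvPolynomial Pool.Agent.Y232.Amalg

/-- For all `m, n ≥ 1` there are real zero polynomials `p ∈ ℝ[x, y]` and `q ∈ ℝ[x, z]` of degree at
most three, `x = (x_1, x_2)`, `y = (y_1, …, y_m)`, `z = (z_1, …, z_n)`, with `p(x, 0) = q(x, 0)`,
such that no real zero polynomial `r ∈ ℝ[x, y, z]` of degree at most three satisfies
`r(x, y, 0) = p` and `r(x, 0, z) = q`. -/
theorem result (m n : ℕ) (hm : 1 ≤ m) (hn : 1 ≤ n) :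
    ∃ (p : MvPolynomial (Fin 2 ⊕ Fin m) ℝ) (q : MvPolynomial (Fin 2 ⊕ Fin n) ℝ),
      IsRealZero p ∧ IsRealZero q ∧ p.totalDegree ≤ 3 ∧ q.totalDegree ≤ 3 ∧
      restrictX p = restrictX q ∧
      ¬ ∃ r : MvPolynomial (Fin 2 ⊕ (Fin m ⊕ Fin n)) ℝ, IsRealZero r ∧ r.totalDegree ≤ 3 ∧
        restrictXY r = p ∧ restrictXZ r = q :=
  ⟨P ⟨0, hm⟩, Q ⟨0, hn⟩, pp_realZero _ _ _, qq_realZero _ _ _, pp_degree _ _ _, qq_degree _ _ _,
    restrict_eq _ _, fun ⟨r, hr, hd, h1, h2⟩ => no_amalgam _ _ r hr hd h1 h2⟩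

end Pool.Agent.Results.MP_eea824_ag.NoCubicAmalgam
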